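import Pool.Agent.N992.HSC.Func

/-!
# Tensors of the first cohomology of Fermat curves
-/

namespace Pool.Agent.N992.HSC

open Finset Pool.Agent.H916T

/-- A vector space over the rational numbers with an action of `((ℤ/m) ^ 3) ^ (2 * n)` and an
invariant symmetric bilinear form, such that for every vector `v` and every character `a` the
component of `(v, v)` for `a` vanishes, or `a` consists of triples of nonzero residues with sum zero,
its entries are a Tate character, and the component has the sign of this character; and such that a
vector is zero if all its components vanish. The numerical equivalence classes of algebraic cycles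
of codimension `n` on the product of `2 * n` Fermat curves of degree `m` which lie in the tensor power
of the first cohomology, with the form `(-1) ^ n * deg (x * y)`, are an example. -/
structure FermatTensors {p : ℕ} (S : SignSystem p) (m n : ℕ) [NeZero m] where
  /-- the vector space -/
  V : Type
  [grp : AddCommGroup V]
  [mod : Module ℚ V]
  /-- the form -/
  form : V →ₗ[ℚ] V →ₗ[ℚ] ℚ
  /-- the action -/
  act : (Fin (2 * n) × Fin 3 → ZMod m) → V →ₗ[ℚ] V
  act_zero : ∀ v, act 0 v = v
  act_add : ∀ g h v, act (g + h) v = act g (act h v)
  symm : ∀ v w, form v w = form w v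
  invariant : ∀ g v w, form (act g v) (act g w) = form v w
  /-- the components have the prescribed signs -/
  sign : ∀ (v : V) (a : Fin (2 * n) × Fin 3 → ZMod m), component form act a v ≠ 0 →
    (∀ i, a (i, 0) ≠ 0 ∧ a (i, 1) ≠ 0 ∧ a (i, 2) ≠ 0 ∧ a (i, 0) + a (i, 1) + a (i, 2) = 0) ∧
    IsTate p m (Finset.univ.val.map a) ∧
      ∃ r : ℝ, 0 < r ∧ component form act a v = ((r * S.sgn m (Finset.univ.val.map a) : ℝ) : ℂ)
  /-- the form is nondegenerate on the eigenspaces -/
  nondeg : ∀ v : V, (∀ a : Fin (2 * n) × Fin 3 → ZMod m, component form act a v = 0) → v = 0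

attribute [instance] FermatTensors.grp FermatTensors.mod

/-- the signs of the form on the tensors are given by one linear functional -/
theorem exists_functional_tensors {p m : ℕ} [NeZero m] (S : SignSystem p) (hp : p.Prime)
    (hpm : p.Coprime m) :
    ∃ l : (ZMod m → ZMod 2) →ₗ[ZMod 2] ZMod 2, ∀ n : ℕ, 0 < n → ∀ (C : FermatTensors S m n)
      (v : C.V) (π : ZMod m → ZMod 2), v ≠ 0 →
        (∀ a, component C.form C.act a v ≠ 0 → parity p m (univ.val.map a) = π) →
        (l π = 0 → 0 < C.form v v) ∧ (l π = 1 → C.form v v < 0) := by
  obtain ⟨l, hl⟩ := exists_functional (m := m) S hp hpm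
  refine ⟨l, ?_⟩
  intro n hn C v π hv hπ
  have hA : ∀ a, component C.form C.act a v ≠ 0 → Alg S m (univ.val.map a) := by
    intro a ha
    obtain ⟨_, hT, r, hr, h⟩ := C.sign v a ha
    refine ⟨hT, ?_, ?_⟩
    · intro h0
      have h1 := congrArg Multiset.card h0
      simp at h1
      omega
    · intro h0
      apply ha
      rw [h, h0]
      simp
  have hnd : ∃ a, component C.form C.act a v ≠ 0 := by
    by_contra hc
    push Not at hc
    exact hv (C.nondeg v hc)
  constructor
  · intro h0
    have h2 := form_pos_general C.form C.act (C.act_zero v) hnd 1 (fun a ha => by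
      rcases hl _ (hA a ha) with h | h
      · obtain ⟨_, hT, r, hr, h3⟩ := C.sign v a ha
        rw [h.2] at h3
        exact ⟨r, hr, h3⟩
      · rw [hπ a ha, h0] at h
        exact absurd h.1 (by decide))
    simpa using h2.2
  · intro h1
    have h2 := form_pos_general C.form C.act (C.act_zero v) hnd (-1) (fun a ha => by
      rcases hl _ (hA a ha) with h | h
      · rw [hπ a ha, h1] at h
        exact absurd h.1 (by decide)
      · obtain ⟨_, hT, r, hr, h3⟩ := C.sign v a ha
        rw [h.2] at h3
        exact ⟨r, hr, h3⟩)
    have h3 := h2.2
    push_cast at h3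
    linarith

end Pool.Agent.N992.HSC
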