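import Pool.Agent.N214.FT.Defs

/-!
# Signs of the intersection forms of Fermat varieties in positive characteristic

Let `m` be prime to the prime `p`, and let `X` be the Fermat variety of degree `m` and dimension
`2 * k` over an algebraic closure of the field with `p` elements. The primitive algebraic classes of
codimension `k` modulo numerical equivalence, with complex coefficients, are the direct sum of their
eigenspaces `A(s)` for the characters `s` (`2 * k + 2` nonzero residues modulo `m` with sum zero) of
`μ_m ^ (2 * k + 2)`, and `A(s)` has dimension at most one. If `x` spans `A(s)`, then its complex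
conjugate spans `A(-s)`, and `(-1) ^ k * deg (x * conj x)` is a nonzero real number. Its sign is
called the sign of `s`; the sign of `s` is `0` if `A(s) = 0`.

The standard conjecture of Hodge type for `X` says that no sign is `-1`. A *sign system* is a
function which has the following properties of the sign.

* `join`: the blow up of Shioda and Katsura identifies `A(s + t)` with `A(s) ⊗ A(t)`; one new
  hyperplane class with self-intersection `-1` on the exceptional divisor.
* `pair`: points.
* `level`: pull back along `(x_i) ↦ (x_i ^ N)`.
* `surface`: the Tate conjecture for Fermat surfaces and the Hodge index theorem.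
* `standard`: algebraic classes which lift to characteristic zero (Aoki), where the Hodge-Riemann
  relations hold.
* `modular`: the line of a modular Tate character is the reduction of a polarized tensor product of
  powers of the `H^1` of elliptic curves with complex multiplication; the algebraic classes on
  products of elliptic curves are generated by divisors, and satisfy the standard conjecture of
  Hodge type.
-/

namespace Pool.Agent.N992.HSC

open Pool.Agent.H916T Pool.Agent.N214.FT

/-- Functions with the formal properties of the signs of the intersection forms on the lines of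
Tate characters. -/
structure SignSystem (p : ℕ) where
  /-- the sign of a character of degree `m` -/
  sgn : (m : ℕ) → Multiset (ZMod m) → ℤ
  /-- the only values are `-1`, `0`, `1` -/
  range : ∀ m s, sgn m s = 0 ∨ sgn m s = 1 ∨ sgn m s = -1
  /-- unions, the line of the first character being algebraic -/
  join : ∀ m : ℕ, 0 < m → p.Coprime m → ∀ s t : Multiset (ZMod m), IsTate p m s → IsTate p m t →
    sgn m s ≠ 0 → sgn m (s + t) = sgn m s * sgn m t
  /-- points -/
  pair : ∀ m : ℕ, 0 < m → p.Coprime m → ∀ a : ZMod m, a ≠ 0 → sgn m {a, -a} = 1
  /-- raising the degree -/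
  level : ∀ m : ℕ, 0 < m → p.Coprime m → ∀ N : ℕ, 0 < N → p.Coprime N →
    ∀ s : Multiset (ZMod m), IsTate p m s →
      sgn (N * m) (s.map fun a => ((N * a.val : ℕ) : ZMod (N * m))) = sgn m s
  /-- surfaces -/
  surface : ∀ m : ℕ, 0 < m → p.Coprime m → ∀ s : Multiset (ZMod m), SurfaceTate p m s →
    sgn m s = 1
  /-- the standard characters of Aoki -/
  standard : ∀ m : ℕ, 0 < m → p.Coprime m → ∀ q : ℕ, q.Prime → q ∣ m →
    ∀ s : Multiset (ZMod m), Standard q m s → sgn m s = 1
  /-- modular Tate characters -/
  modular : ∀ m : ℕ, 0 < m → p.Coprime m → ∀ s : Multiset (ZMod m), s ≠ 0 → ModularTate p m s →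
    sgn m s = 1

/-- The character `g ↦ exp (2 π i ∑ a i * g i / m)`. -/
noncomputable def chi {m : ℕ} {ι : Type} [Fintype ι] [NeZero m] (a g : ι → ZMod m) : ℂ :=
  ZMod.stdAddChar (∑ i, a i * g i)

/-- The component `∑ g, conj (χ_a g) * (g v, v)` of `(v, v)` for the character `a` of `(ℤ/m) ^ ι`,
for an action of `(ℤ/m) ^ ι` on a rational vector space with a bilinear form. Up to the factor
`m ^ |ι|` it is `(x, conj x)`, where `x` is the component of `v` in the eigenspace of `a`. -/
noncomputable def component {m : ℕ} {ι : Type} [Fintype ι] [DecidableEq ι] [NeZero m] {V : Type}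
    [AddCommGroup V] [Module ℚ V] (form : V →ₗ[ℚ] V →ₗ[ℚ] ℚ) (act : (ι → ZMod m) → V →ₗ[ℚ] V)
    (a : ι → ZMod m) (v : V) : ℂ :=
  ∑ g, (starRingEnd ℂ) (chi a g) * ((form (act g v) v : ℚ) : ℂ)

/-- A vector space over the rational numbers with an action of `(ℤ/m) ^ (2 * k + 2)` and an
invariant symmetric bilinear form, such that for every vector `v` and every character `a` the
component of `(v, v)` for `a` vanishes or has the sign of `a`, `a` being a Tate character, and such
that, if no Tate character has the sign `0`, a vector is zero if all its components vanish. The
primitive algebraic classes of codimension `k` on the Fermat variety of degree `m` and dimension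
`2 * k`, modulo homological or numerical equivalence, with the form `(-1) ^ k * deg (x * y)`, are
an example: if the sign of `a` is not `0`, then the motive of the line of `a` is a Tate motive, so
that homologically and numerically trivial classes agree there; and the eigenspaces of the
characters which are not Tate characters contain no algebraic classes. -/
structure PrimitiveClasses {p : ℕ} (S : SignSystem p) (m k : ℕ) [NeZero m] where
  /-- the vector space -/
  V : Type
  [grp : AddCommGroup V]
  [mod : Module ℚ V]
  /-- the form -/
  form : V →ₗ[ℚ] V →ₗ[ℚ] ℚ
  /-- the action -/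
  act : (Fin (2 * k + 2) → ZMod m) → V →ₗ[ℚ] V
  act_zero : ∀ v, act 0 v = v
  act_add : ∀ g h v, act (g + h) v = act g (act h v)
  symm : ∀ v w, form v w = form w v
  invariant : ∀ g v w, form (act g v) (act g w) = form v w
  /-- the components have the prescribed signs -/
  sign : ∀ (v : V) (a : Fin (2 * k + 2) → ZMod m), component form act a v ≠ 0 →
    IsTate p m (Finset.univ.val.map a) ∧
      ∃ r : ℝ, 0 < r ∧ component form act a v = ((r * S.sgn m (Finset.univ.val.map a) : ℝ) : ℂ)
  /-- the form is nondegenerate on the eigenspaces, if all Tate classes are algebraic -/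
  nondeg : (∀ a : Fin (2 * k + 2) → ZMod m, IsTate p m (Finset.univ.val.map a) →
      S.sgn m (Finset.univ.val.map a) ≠ 0) →
    ∀ v : V, (∀ a : Fin (2 * k + 2) → ZMod m, component form act a v = 0) → v = 0

attribute [instance] PrimitiveClasses.grp PrimitiveClasses.mod

/-- Linked residues: two nonzero residues `a`, `b` modulo `m` such that the (additive) orders of `a`
and `b` have the same prime divisors, or both orders are even, or, for every unit `t` modulo `m`,
the representatives in `{1, ..., m - 1}` of the residues `p ^ j * t * a`, `0 ≤ j < f`, `f` being the
order of `p` modulo `m`, have the same sum as those of the residues `p ^ j * t * b`. -/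
def Linked (p m : ℕ) (a b : ZMod m) : Prop :=
  a ≠ 0 ∧ b ≠ 0 ∧
    ((addOrderOf a).primeFactors = (addOrderOf b).primeFactors ∨
      (Even (addOrderOf a) ∧ Even (addOrderOf b)) ∨
      ∀ t : (ZMod m)ˣ,
        ∑ j ∈ Finset.range (orderOf (p : ZMod m)), ((p : ZMod m) ^ j * ((t : ZMod m) * a)).val =
          ∑ j ∈ Finset.range (orderOf (p : ZMod m)), ((p : ZMod m) ^ j * ((t : ZMod m) * b)).val)

end Pool.Agent.N992.HSC
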