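import Pool.Agent.N992.HSC.Pos

/-!
# The parity functional
-/

namespace Pool.Agent.N992.HSC

open Finset Pool.Agent.H916R2 Pool.Agent.H916T Pool.Agent.H916Y Pool.Agent.N214.FT

variable {p m : ℕ}

open scoped Classical in
/-- The parity vector of a multiset `s` of residues modulo `m`: its value at `x` is the parity of
the number of entries of `s` which belong to the class of `x` for the equivalence relation generated
by the links. -/
noncomputable def parity (p m : ℕ) (s : Multiset (ZMod m)) : ZMod m → ZMod 2 :=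
  fun x => (Multiset.card (s.filter fun b => Relation.EqvGen (Linked p m) x b) : ZMod 2)

lemma parity_add (s t : Multiset (ZMod m)) : parity p m (s + t) = parity p m s + parity p m t := by
  funext x
  simp only [parity, Pi.add_apply, Multiset.filter_add, Multiset.card_add, Nat.cast_add]

lemma sgn_of_parity_zero [NeZero m] (S : SignSystem p) (hp : p.Prime) (hpm : p.Coprime m)
    {s : Multiset (ZMod m)} (hs : IsTate p m s) (hne : s ≠ 0) (h : parity p m s = 0) :
    S.sgn m s = 1 := by
  classical
  refine sgn_even S hp (Nat.pos_of_ne_zero (NeZero.ne m)) hpm hs hne ?_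
  intro a
  have hE : Pool.Agent.H916Z.Link p = Linked p m := by
    funext a b
    exact propext (linked_iff hpm a b)
  rw [hE, Multiset.countP_eq_card_filter]
  have h1 := congrFun h a
  simp only [parity, Pi.zero_apply] at h1
  rw [ZMod.natCast_eq_zero_iff] at h1
  exact even_iff_two_dvd.mpr h1

lemma add_self_zmod (f : ZMod m → ZMod 2) : f + f = 0 := by
  funext x
  have : ∀ y : ZMod 2, y + y = 0 := by decide
  exact this (f x)

/-- the sign of two characters with the same parity vector -/
lemma sgn_of_parity_eq [NeZero m] (S : SignSystem p) (hp : p.Prime) (hpm : p.Coprime m)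
    {s t : Multiset (ZMod m)} (hs : IsTate p m s) (ht : IsTate p m t) (hne : s ≠ 0)
    (h : parity p m s = parity p m t) : S.sgn m s = S.sgn m t := by
  classical
  refine sgn_eq S hp (Nat.pos_of_ne_zero (NeZero.ne m)) hpm hs ht hne ?_
  intro a
  have hE : Pool.Agent.H916Z.Link p = Linked p m := by
    funext a b
    exact propext (linked_iff hpm a b)
  have h0 : parity p m (s + t) = 0 := by rw [parity_add, h, add_self_zmod]
  rw [hE, Multiset.countP_eq_card_filter]
  have h1 := congrFun h0 a
  simp only [parity, Pi.zero_apply] at h1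
  rw [ZMod.natCast_eq_zero_iff] at h1
  exact even_iff_two_dvd.mpr h1

/-- the algebraic Tate characters -/
def Alg (S : SignSystem p) (m : ℕ) (s : Multiset (ZMod m)) : Prop :=
  IsTate p m s ∧ s ≠ 0 ∧ S.sgn m s ≠ 0

lemma Alg.add [NeZero m] {S : SignSystem p} (hpm : p.Coprime m) {s t : Multiset (ZMod m)}
    (hs : Alg S m s) (ht : Alg S m t) :
    Alg S m (s + t) ∧ S.sgn m (s + t) = S.sgn m s * S.sgn m t := by
  have h := S.join m (Nat.pos_of_ne_zero (NeZero.ne m)) hpm s t hs.1 ht.1 hs.2.2
  refine ⟨⟨isTate_add hpm hs.1 ht.1, ?_, ?_⟩, h⟩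
  · intro h0
    apply hs.2.1
    have := congrArg Multiset.card h0
    rw [Multiset.card_add, Multiset.card_zero] at this
    exact Multiset.card_eq_zero.mp (by omega)
  · rw [h]; exact mul_ne_zero hs.2.2 ht.2.2

/-- the parity vectors of algebraic characters -/
noncomputable def PP (S : SignSystem p) (m : ℕ) [NeZero m] (hpm : p.Coprime m) :
    AddSubmonoid (ZMod m → ZMod 2) where
  carrier := {π | π = 0 ∨ ∃ s, Alg S m s ∧ parity p m s = π}
  zero_mem' := Or.inl rfl
  add_mem' := by
    rintro a b (rfl | ⟨s, hs, rfl⟩) (rfl | ⟨t, ht, rfl⟩)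
    · exact Or.inl (add_zero 0)
    · exact Or.inr ⟨t, ht, (zero_add _).symm⟩
    · exact Or.inr ⟨s, hs, (add_zero _).symm⟩
    · exact Or.inr ⟨s + t, (hs.add hpm ht).1, parity_add s t⟩

open scoped Classical in
/-- the functional on the parity vectors of algebraic characters -/
noncomputable def l0 (S : SignSystem p) (m : ℕ) (π : ZMod m → ZMod 2) : ZMod 2 :=
  if ∃ s, Alg S m s ∧ parity p m s = π ∧ S.sgn m s = -1 then 1 else 0

lemma l0_zero [NeZero m] (S : SignSystem p) (hp : p.Prime) (hpm : p.Coprime m) :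
    l0 S m 0 = 0 := by
  unfold l0
  rw [if_neg]
  rintro ⟨s, hs, h1, h2⟩
  rw [sgn_of_parity_zero S hp hpm hs.1 hs.2.1 h1] at h2
  norm_num at h2

lemma l0_parity [NeZero m] (S : SignSystem p) (hp : p.Prime) (hpm : p.Coprime m)
    {s : Multiset (ZMod m)} (hs : Alg S m s) :
    l0 S m (parity p m s) = if S.sgn m s = -1 then 1 else 0 := by
  unfold l0
  by_cases h : S.sgn m s = -1
  · rw [if_pos h, if_pos ⟨s, hs, rfl, h⟩]
  · rw [if_neg h, if_neg]
    rintro ⟨t, ht, h1, h2⟩
    apply h
    rw [← h2]
    exact (sgn_of_parity_eq S hp hpm ht.1 hs.1 ht.2.1 h1).symm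

lemma l0_add [NeZero m] (S : SignSystem p) (hp : p.Prime) (hpm : p.Coprime m)
    {a b : ZMod m → ZMod 2} (ha : a ∈ PP S m hpm) (hb : b ∈ PP S m hpm) :
    l0 S m (a + b) = l0 S m a + l0 S m b := by
  rcases ha with rfl | ⟨s, hs, rfl⟩
  · rw [zero_add, l0_zero S hp hpm, zero_add]
  rcases hb with rfl | ⟨t, ht, rfl⟩
  · rw [add_zero, l0_zero S hp hpm, add_zero]
  obtain ⟨h1, h2⟩ := hs.add hpm ht
  rw [← parity_add, l0_parity S hp hpm h1, l0_parity S hp hpm hs, l0_parity S hp hpm ht, h2]
  rcases S.range m s with h3 | h3 | h3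
  · exact absurd h3 hs.2.2
  · rcases S.range m t with h4 | h4 | h4
    · exact absurd h4 ht.2.2
    · rw [h3, h4]; norm_num
    · rw [h3, h4]; norm_num
  · rcases S.range m t with h4 | h4 | h4
    · exact absurd h4 ht.2.2
    · rw [h3, h4]; norm_num
    · rw [h3, h4]
      norm_num
      decide

/-- the linear functional -/
theorem exists_functional [NeZero m] (S : SignSystem p) (hp : p.Prime) (hpm : p.Coprime m) :
    ∃ l : (ZMod m → ZMod 2) →ₗ[ZMod 2] ZMod 2, ∀ s : Multiset (ZMod m), Alg S m s →
      (l (parity p m s) = 0 ∧ S.sgn m s = 1) ∨ (l (parity p m s) = 1 ∧ S.sgn m s = -1) := by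
  have hneg : ∀ x : ZMod m → ZMod 2, -x = x := by
    intro x
    funext i
    have : ∀ y : ZMod 2, -y = y := by decide
    exact this (x i)
  let W : Submodule (ZMod 2) (ZMod m → ZMod 2) :=
    AddSubgroup.toZModSubmodule 2
      { PP S m hpm with neg_mem' := fun {x} hx => by rw [hneg x]; exact hx }
  have hW : ∀ x, x ∈ W ↔ x ∈ PP S m hpm := fun x => Iff.rfl
  let f : W →+ ZMod 2 :=
    { toFun := fun x => l0 S m x.1
      map_zero' := l0_zero S hp hpm
      map_add' := fun x y => l0_add S hp hpm x.2 y.2 }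
  obtain ⟨l, hl⟩ := LinearMap.exists_extend (p := W) (f.toZModLinearMap 2)
  refine ⟨l, fun s hs => ?_⟩
  have hmem : parity p m s ∈ W := Or.inr ⟨s, hs, rfl⟩
  have h1 : l (parity p m s) = l0 S m (parity p m s) := by
    have h2 := LinearMap.congr_fun hl ⟨parity p m s, hmem⟩
    exact h2
  rw [h1, l0_parity S hp hpm hs]
  rcases S.range m s with h3 | h3 | h3
  · exact absurd h3 hs.2.2
  · left; rw [h3]; norm_num
  · right; rw [h3]; norm_num

/-- the sign of the form on the classes with a given parity vector -/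
theorem exists_functional_form [NeZero m] (S : SignSystem p) (hp : p.Prime) (hpm : p.Coprime m) :
    ∃ l : (ZMod m → ZMod 2) →ₗ[ZMod 2] ZMod 2, ∀ (k : ℕ) (C : PrimitiveClasses S m k),
      (∀ v : C.V, (∀ a, component C.form C.act a v = 0) → v = 0) →
      ∀ (v : C.V) (π : ZMod m → ZMod 2), v ≠ 0 →
        (∀ a, component C.form C.act a v ≠ 0 → parity p m (univ.val.map a) = π) →
        (l π = 0 → 0 < C.form v v) ∧ (l π = 1 → C.form v v < 0) := by
  obtain ⟨l, hl⟩ := exists_functional (m := m) S hp hpm
  refine ⟨l, ?_⟩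
  intro k C hC v π hv hπ
  have hA : ∀ a, component C.form C.act a v ≠ 0 → Alg S m (univ.val.map a) := by
    intro a ha
    obtain ⟨hT, r, hr, h⟩ := C.sign v a ha
    refine ⟨hT, tuple_ne_zero a, ?_⟩
    intro h0
    apply ha
    rw [h, h0]
    simp
  constructor
  · intro h0
    have h2 := form_pos C hC hv 1 (fun a ha => by
      rcases hl _ (hA a ha) with h | h
      · exact h.2
      · rw [hπ a ha, h0] at h
        exact absurd h.1 (by decide))
    simpa using h2.2
  · intro h1
    have h2 := form_pos C hC hv (-1) (fun a ha => by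
      rcases hl _ (hA a ha) with h | h
      · rw [hπ a ha, h1] at h
        exact absurd h.1 (by decide)
      · exact h.2)
    have h3 := h2.2
    push_cast at h3
    linarith

end Pool.Agent.N992.HSC
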