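import Pool.Agent.N992.HSC.Sgn

/-!
# From signs to positivity
-/

namespace Pool.Agent.N992.HSC

open Finset Pool.Agent.H916R2 Pool.Agent.H916T Pool.Agent.H916Y Pool.Agent.N214.FT

variable {p m : ℕ}

section fourier

variable {ι : Type} [Fintype ι] [DecidableEq ι] [NeZero m]

/-- the character `a ↦ χ_a(g)` -/
noncomputable def psi (g : ι → ZMod m) : AddChar (ι → ZMod m) ℂ where
  toFun a := chi a g
  map_zero_eq_one' := by simp [chi]
  map_add_eq_mul' a b := by
    unfold chi
    rw [← AddChar.map_add_eq_mul, ← sum_add_distrib]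
    congr 1
    exact sum_congr rfl fun i _ => by rw [Pi.add_apply, add_mul]

lemma psi_eq_zero {g : ι → ZMod m} (h : psi g = 0) : g = 0 := by
  funext i
  have h1 : psi g (Pi.single i 1) = 1 := by rw [h]; rfl
  have h2 : psi g (Pi.single i 1) = ZMod.stdAddChar (g i) := by
    change ZMod.stdAddChar (∑ j, (Pi.single i 1 : ι → ZMod m) j * g j) = _
    congr 1
    rw [Finset.sum_eq_single i]
    · simp
    · intro j _ hj
      rw [Pi.single_eq_of_ne hj, zero_mul]
    · intro h; exact absurd (mem_univ i) h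
  rw [h2] at h1
  have h3 : (ZMod.stdAddChar (g i) : ℂ) = ZMod.stdAddChar (0 : ZMod m) := by
    rw [h1, AddChar.map_zero_eq_one]
  exact ZMod.injective_stdAddChar h3

lemma sum_chi (g : ι → ZMod m) :
    ∑ a : ι → ZMod m, chi a g = if g = 0 then (Fintype.card (ι → ZMod m) : ℂ) else 0 := by
  have h := AddChar.sum_eq_ite (psi g)
  have h1 : ∑ a, psi g a = ∑ a : ι → ZMod m, chi a g := rfl
  rw [← h1, h]
  by_cases hg : g = 0
  · subst hg
    rw [if_pos rfl, if_pos]
    ext a
    change chi a 0 = 1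
    simp [chi]
  · rw [if_neg hg, if_neg]
    intro h2
    exact hg (psi_eq_zero h2)

lemma fourier (F : (ι → ZMod m) → ℂ) :
    ∑ a, ∑ g, (starRingEnd ℂ) (chi a g) * F g = (Fintype.card (ι → ZMod m) : ℂ) * F 0 := by
  rw [sum_comm]
  have h1 : ∀ g : ι → ZMod m, ∑ a, (starRingEnd ℂ) (chi a g) * F g =
      (starRingEnd ℂ) (∑ a, chi a g) * F g := by
    intro g
    rw [map_sum, sum_mul]
  rw [sum_congr rfl fun g _ => h1 g]
  rw [Finset.sum_eq_single 0]
  · rw [sum_chi, if_pos rfl]
    simp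
  · intro g _ hg
    rw [sum_chi, if_neg hg, map_zero, zero_mul]
  · intro h; exact absurd (mem_univ _) h

end fourier

/-- if all components of a vector are positive multiples of the sign `ε` or zero, then the form has
this sign -/
lemma form_pos_general {ι : Type} [Fintype ι] [DecidableEq ι] [NeZero m] {V : Type}
    [AddCommGroup V] [Module ℚ V] (form : V →ₗ[ℚ] V →ₗ[ℚ] ℚ) (act : (ι → ZMod m) → V →ₗ[ℚ] V)
    {v : V} (h0 : act 0 v = v) (hnd : ∃ a, component form act a v ≠ 0) (ε : ℤ)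
    (h : ∀ a, component form act a v ≠ 0 →
      ∃ r : ℝ, 0 < r ∧ component form act a v = ((r * ε : ℝ) : ℂ)) :
    ε ≠ 0 ∧ 0 < (ε : ℚ) * form v v := by
  obtain ⟨a0, ha0⟩ := hnd
  have hε : ε ≠ 0 := by
    rintro rfl
    obtain ⟨r, hr, h2⟩ := h a0 ha0
    apply ha0
    rw [h2]
    simp
  refine ⟨hε, ?_⟩
  have h2 : ∀ a, ∃ r : ℝ, 0 ≤ r ∧ (component form act a v ≠ 0 → 0 < r) ∧
      (ε : ℂ) * component form act a v = (r : ℂ) := by
    intro a
    by_cases ha : component form act a v = 0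
    · exact ⟨0, le_refl _, fun h => absurd ha h, by rw [ha]; simp⟩
    · obtain ⟨r, hr, h4⟩ := h a ha
      have h5 : 0 < (ε : ℝ) * ε := by
        have h6 : (ε : ℝ) ≠ 0 := by exact_mod_cast hε
        exact mul_self_pos.mpr h6
      refine ⟨ε * ε * r, by positivity, fun _ => by positivity, ?_⟩
      rw [h4]
      push_cast
      ring
  choose r hr0 hr1 hr2 using h2
  have h3 : (ε : ℂ) * ((Fintype.card (ι → ZMod m) : ℂ) * ((form v v : ℚ) : ℂ)) =
      ((∑ a, r a : ℝ) : ℂ) := by
    have h4 := fourier (fun g => ((form (act g v) v : ℚ) : ℂ))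
    rw [h0] at h4
    rw [← h4, mul_sum]
    push_cast
    exact sum_congr rfl fun a _ => hr2 a
  have h5 : (ε : ℝ) * ((Fintype.card (ι → ZMod m) : ℝ) * ((form v v : ℚ) : ℝ)) =
      ∑ a, r a := by
    apply Complex.ofReal_injective
    push_cast
    push_cast at h3
    exact h3
  have h6 : 0 < ∑ a, r a := sum_pos' (fun a _ => hr0 a) ⟨a0, mem_univ _, hr1 a0 ha0⟩
  rw [← h5] at h6
  have h7 : 0 < (Fintype.card (ι → ZMod m) : ℝ) := by
    exact_mod_cast Fintype.card_pos
  have h8 : 0 < (ε : ℝ) * ((form v v : ℚ) : ℝ) := by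
    have h9 : (ε : ℝ) * ((Fintype.card (ι → ZMod m) : ℝ) * ((form v v : ℚ) : ℝ)) =
      (Fintype.card (ι → ZMod m) : ℝ) * ((ε : ℝ) * ((form v v : ℚ) : ℝ)) := by ring
    rw [h9] at h6
    exact (mul_pos_iff_of_pos_left h7).mp h6
  exact_mod_cast h8

/-- if all components of a vector have the same sign, then the form has this sign -/
lemma form_pos {S : SignSystem p} {k : ℕ} [NeZero m] (C : PrimitiveClasses S m k)
    (hC : ∀ v : C.V, (∀ a, component C.form C.act a v = 0) → v = 0) {v : C.V} (hv : v ≠ 0)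
    (ε : ℤ) (h : ∀ a, component C.form C.act a v ≠ 0 → S.sgn m (univ.val.map a) = ε) :
    ε ≠ 0 ∧ 0 < (ε : ℚ) * C.form v v := by
  refine form_pos_general C.form C.act (C.act_zero v) ?_ ε ?_
  · by_contra hc
    push Not at hc
    exact hv (hC v hc)
  · intro a ha
    obtain ⟨_, r, hr, h2⟩ := C.sign v a ha
    rw [h a ha] at h2
    exact ⟨r, hr, h2⟩

lemma W_val (hpm : p.Coprime m) [NeZero m] {a : ZMod m} (ha : a ≠ 0) (t : (ZMod m)ˣ) :
    W p ((t : ZMod m) * a) =
      2 * ((∑ j ∈ Finset.range (orderOf (p : ZMod m)),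
        ((p : ZMod m) ^ j * ((t : ZMod m) * a)).val : ℕ) : ℤ) - orderOf (p : ZMod m) * m := by
  unfold W
  have hu := H916T.isUnit_p hpm
  have h1 : ∀ j ∈ Finset.range (orderOf (p : ZMod m)),
      H916R2.saw ((p : ZMod m) ^ j * ((t : ZMod m) * a)) =
        2 * ((((p : ZMod m) ^ j * ((t : ZMod m) * a)).val : ℕ) : ℤ) - m := by
    intro j _
    apply H916R2.saw_of_ne_zero
    intro h
    have h2 := ((hu.pow j).mul_right_eq_zero).mp h
    exact ha ((t.isUnit.mul_right_eq_zero).mp h2)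
  rw [Finset.sum_congr rfl h1, Finset.sum_sub_distrib, ← Finset.mul_sum]
  push_cast
  simp

lemma linked_iff (hpm : p.Coprime m) [NeZero m] (a b : ZMod m) :
    H916Z.Link p a b ↔ Linked p m a b := by
  unfold H916Z.Link Linked
  constructor
  · rintro ⟨ha, hb, h | ⟨h1, h2⟩ | h⟩
    · exact ⟨ha, hb, Or.inl h⟩
    · exact ⟨ha, hb, Or.inr (Or.inl ⟨even_iff_two_dvd.mpr h1, even_iff_two_dvd.mpr h2⟩)⟩
    · refine ⟨ha, hb, Or.inr (Or.inr fun t => ?_)⟩
      have h1 := h t
      rw [W_val hpm ha, W_val hpm hb] at h1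
      have h2 : ((∑ j ∈ Finset.range (orderOf (p : ZMod m)),
          ((p : ZMod m) ^ j * ((t : ZMod m) * a)).val : ℕ) : ℤ) =
        ((∑ j ∈ Finset.range (orderOf (p : ZMod m)),
          ((p : ZMod m) ^ j * ((t : ZMod m) * b)).val : ℕ) : ℤ) := by linarith
      exact_mod_cast h2
  · rintro ⟨ha, hb, h | ⟨h1, h2⟩ | h⟩
    · exact ⟨ha, hb, Or.inl h⟩
    · exact ⟨ha, hb, Or.inr (Or.inl ⟨even_iff_two_dvd.mp h1, even_iff_two_dvd.mp h2⟩)⟩
    · refine ⟨ha, hb, Or.inr (Or.inr fun t => ?_)⟩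
      rw [W_val hpm ha, W_val hpm hb, h t]

/-- multiplication by a unit does not change the sign -/
lemma sgn_unit [NeZero m] (S : SignSystem p) (hp : p.Prime) (hpm : p.Coprime m)
    {s : Multiset (ZMod m)} (hs : IsTate p m s) (hne : s ≠ 0) (u : (ZMod m)ˣ) :
    IsTate p m (s.map fun a => (u : ZMod m) * a) ∧
      S.sgn m (s.map fun a => (u : ZMod m) * a) = S.sgn m s := by
  classical
  have hT : IsTate p m (s.map fun a => (u : ZMod m) * a) := by
    refine isTate_of_W hpm ?_ ?_ ?_ ?_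
    · intro h
      obtain ⟨b, hb, hb0⟩ := Multiset.mem_map.mp h
      have h1 := (u.isUnit.mul_right_eq_zero).mp hb0
      rw [h1] at hb
      exact hs.1 hb
    · rw [Multiset.card_map]; exact hs.2.1
    · rw [Multiset.sum_map_mul_left, Multiset.map_id', hs.2.2.1, mul_zero]
    · intro t
      rw [Multiset.map_map]
      have h1 := hs.W_sum hpm (t * u)
      rw [← h1]
      congr 1
      apply Multiset.map_congr rfl
      intro a _
      simp only [Function.comp_apply, Units.val_mul, mul_assoc]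
  refine ⟨hT, ?_⟩
  symm
  apply sgn_eq S hp (Nat.pos_of_ne_zero (NeZero.ne m)) hpm hs hT hne
  intro a
  have h1 : (s.map fun b => (u : ZMod m) * b).countP
      (fun b => Relation.EqvGen (H916Z.Link p) a b) =
      s.countP (fun b => Relation.EqvGen (H916Z.Link p) a b) := by
    rw [Multiset.countP_map, ← Multiset.countP_eq_card_filter]
    apply Multiset.countP_congr rfl
    intro b hb
    have hb0 : b ≠ 0 := fun h => hs.1 (h ▸ hb)
    have hL : H916Z.Link p b ((u : ZMod m) * b) := by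
      refine ⟨hb0, fun h => hb0 ((u.isUnit.mul_right_eq_zero).mp h), Or.inl ?_⟩
      congr 1
      apply Nat.dvd_antisymm
      · apply addOrderOf_dvd_of_nsmul_eq_zero
        have h2 : addOrderOf ((u : ZMod m) * b) • ((u : ZMod m) * b) = 0 :=
          addOrderOf_nsmul_eq_zero _
        rw [nsmul_eq_mul, mul_left_comm] at h2
        rw [nsmul_eq_mul]
        exact (u.isUnit.mul_right_eq_zero).mp h2
      · apply addOrderOf_dvd_of_nsmul_eq_zero
        have h2 : addOrderOf b • b = 0 := addOrderOf_nsmul_eq_zero _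
        rw [nsmul_eq_mul] at h2
        rw [nsmul_eq_mul, mul_left_comm, h2, mul_zero]
    apply propext
    constructor
    · intro h
      exact Relation.EqvGen.trans _ _ _ h (Relation.EqvGen.symm _ _ (Relation.EqvGen.rel _ _ hL))
    · intro h
      exact Relation.EqvGen.trans _ _ _ h (Relation.EqvGen.rel _ _ hL)
  rw [Multiset.countP_add, h1]
  exact ⟨_, rfl⟩

/-- definiteness on the pieces of one Galois orbit of characters -/
theorem definite [NeZero m] (S : SignSystem p) (hp : p.Prime) (hpm : p.Coprime m) {k : ℕ}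
    (C : PrimitiveClasses S m k)
    (hC : ∀ v : C.V, (∀ a, component C.form C.act a v = 0) → v = 0) {v : C.V} (hv : v ≠ 0)
    (a : Fin (2 * k + 2) → ZMod m) (h : ∀ b, component C.form C.act b v ≠ 0 → ∃ u : (ZMod m)ˣ, ∀ i, b i = (u : ZMod m) * a i) :
    S.sgn m (univ.val.map a) ≠ 0 ∧ 0 < (S.sgn m (univ.val.map a) : ℚ) * C.form v v := by
  apply form_pos C hC hv
  intro b hb
  obtain ⟨hT, _⟩ := C.sign v b hb
  obtain ⟨u, hu⟩ := h b hb
  have hne : (univ.val.map b) ≠ 0 := by
    intro h0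
    have := congrArg Multiset.card h0
    rw [Multiset.card_map, Multiset.card_zero] at this
    simp at this
  have h1 := (sgn_unit S hp hpm hT hne u⁻¹).2
  rw [← h1]
  congr 1
  rw [Multiset.map_map]
  apply Multiset.map_congr rfl
  intro i _
  simp only [Function.comp_apply]
  rw [hu i, ← mul_assoc, Units.inv_mul, one_mul]

lemma tuple_ne_zero {k : ℕ} (a : Fin (2 * k + 2) → ZMod m) :
    (univ.val.map a : Multiset (ZMod m)) ≠ 0 := by
  intro h0
  have := congrArg Multiset.card h0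
  simp at this

/-- positivity in the good degrees -/
theorem positive [NeZero m] (S : SignSystem p) (hp : p.Prime) (hpm : p.Coprime m)
    (hm3 : ∀ q : ℕ, q.Prime → q ∣ m → q = 2 ∨ q % 4 = 3) {k : ℕ}
    (C : PrimitiveClasses S m k) {v : C.V} (hv : v ≠ 0) : 0 < C.form v v := by
  have h1 : ∀ s : Multiset (ZMod m), IsTate p m s → s ≠ 0 → S.sgn m s = 1 :=
    fun s hs hne => sgn_good S hp (Nat.pos_of_ne_zero (NeZero.ne m)) hpm hm3 hs hne
  have h2 := form_pos C (C.nondeg fun a ha => by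
    rw [h1 _ ha (tuple_ne_zero a)]; norm_num) hv 1 (fun a ha =>
      h1 _ (C.sign v a ha).1 (tuple_ne_zero a))
  simpa using h2.2

end Pool.Agent.N992.HSC
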