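import Pool.Agent.N992.HSC.Defs
import Pool.Agent.N214.FT.Main

/-!
# Sign systems are determined by parities
-/

namespace Pool.Agent.N992.HSC

open Finset Pool.Agent.H916R2 Pool.Agent.H916T Pool.Agent.H916Y Pool.Agent.N214.FT

variable {p m : ℕ}

lemma isTate_pair [NeZero m] (hpm : p.Coprime m) {a : ZMod m} (ha : a ≠ 0) :
    IsTate p m {a, -a} := by
  refine isTate_of_W hpm ?_ ?_ ?_ ?_
  · simp only [Multiset.insert_eq_cons, Multiset.mem_cons, Multiset.mem_singleton, not_or]
    exact ⟨ha.symm, (neg_ne_zero.mpr ha).symm⟩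
  · simp only [Multiset.insert_eq_cons, Multiset.card_cons, Multiset.card_singleton]
    decide
  · simp [Multiset.insert_eq_cons]
  · intro t
    simp only [Multiset.insert_eq_cons, Multiset.map_cons, Multiset.map_singleton,
      Multiset.sum_cons, Multiset.sum_singleton]
    rw [mul_neg, W_neg, add_neg_cancel]

lemma isTate_standard [NeZero m] (hpm : p.Coprime m) {q : ℕ} (hqm : q ∣ m)
    {s : Multiset (ZMod m)} (hs : Standard q m s) : IsTate p m s := by
  have hg := hs.good hqm
  obtain ⟨hodd, a, ha, rfl⟩ := hs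
  refine isTate_of_W hpm hg.1 hg.2 ?_ ?_
  · rw [Multiset.sum_cons]
    have h1 : ((Multiset.range q).map fun i : ℕ => a + (i : ZMod m) * ((m / q : ℕ) : ZMod m)).sum =
        ∑ i ∈ range q, (a + (i : ZMod m) * ((m / q : ℕ) : ZMod m)) := rfl
    rw [h1, sum_add_distrib, sum_const, card_range, nsmul_eq_mul, ← sum_mul]
    have h2 : (∑ i ∈ range q, (i : ZMod m)) * ((m / q : ℕ) : ZMod m) = 0 := by
      obtain ⟨r, hr⟩ := hodd
      have h3 : ∑ i ∈ range q, i = q * r := by
        have h4 := Finset.sum_range_id_mul_two q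
        have h5 : q - 1 = 2 * r := by omega
        rw [h5] at h4
        have h6 : (∑ i ∈ range q, i) * 2 = (q * r) * 2 := by rw [h4]; ring
        exact Nat.eq_of_mul_eq_mul_right (by norm_num) h6
      rw [← Nat.cast_sum, h3, ← Nat.cast_mul]
      have h7 : q * r * (m / q) = r * m := by
        calc q * r * (m / q) = r * (q * (m / q)) := by ring
          _ = r * m := by rw [Nat.mul_div_cancel' hqm]
      rw [h7, Nat.cast_mul, ZMod.natCast_self, mul_zero]
    rw [h2]
    ring
  · intro t
    rw [Multiset.map_cons, Multiset.sum_cons, Multiset.map_map]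
    have h1 : ((Multiset.range q).map ((fun b => W p ((t : ZMod m) * b)) ∘
        fun i : ℕ => a + (i : ZMod m) * ((m / q : ℕ) : ZMod m))).sum =
        ∑ i ∈ range q, W p ((t : ZMod m) * (a + (i : ZMod m) * ((m / q : ℕ) : ZMod m))) := rfl
    rw [h1, W_dist_unit hpm (Nat.mul_div_cancel' hqm) t a, mul_neg, W_neg, neg_add_cancel]

lemma isTate_cons_cons [NeZero m] (hpm : p.Coprime m) {a : ZMod m} {s : Multiset (ZMod m)}
    (h : IsTate p m (a ::ₘ -a ::ₘ s)) : a ≠ 0 ∧ IsTate p m s := by
  have h0 := h.1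
  simp only [Multiset.mem_cons, not_or] at h0
  refine ⟨Ne.symm h0.1, isTate_of_W hpm h0.2.2 ?_ ?_ ?_⟩
  · have h1 := h.2.1
    rw [Multiset.card_cons, Multiset.card_cons] at h1
    obtain ⟨k, hk⟩ := h1
    exact ⟨k - 1, by omega⟩
  · have h1 := h.2.2.1
    rw [Multiset.sum_cons, Multiset.sum_cons] at h1
    rw [← h1]; ring
  · intro t
    have h1 := h.W_sum hpm t
    rw [Multiset.map_cons, Multiset.map_cons, Multiset.sum_cons, Multiset.sum_cons, mul_neg, W_neg]
      at h1
    linarith

/-- generated characters have sign `1` -/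
lemma sgn_of_generated (S : SignSystem p) (hm : 0 < m) (hpm : p.Coprime m)
    {s : Multiset (ZMod m)} (h : H916T.Generated m (MBase p m) s) :
    IsTate p m s ∧ (s ≠ 0 → S.sgn m s = 1) := by
  have hz : NeZero m := ⟨hm.ne'⟩
  induction h with
  | ofBase s hs =>
    rcases hs with h | ⟨q, hq, hqm, h⟩ | h
    · exact ⟨h.1, fun _ => S.surface m hm hpm s h⟩
    · exact ⟨isTate_standard hpm hqm h, fun _ => S.standard m hm hpm q hq hqm s h⟩
    · exact ⟨h.1, fun h0 => S.modular m hm hpm s h0 h⟩
  | pair a ha => exact ⟨isTate_pair hpm ha, fun _ => S.pair m hm hpm a ha⟩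
  | join s t hs ht ihs iht =>
    refine ⟨isTate_add hpm ihs.1 iht.1, ?_⟩
    intro h0
    by_cases hs0 : s = 0
    · subst hs0
      rw [zero_add] at h0 ⊢
      exact iht.2 h0
    by_cases ht0 : t = 0
    · subst ht0
      rw [add_zero]
      exact ihs.2 hs0
    rw [S.join m hm hpm s t ihs.1 iht.1 (by rw [ihs.2 hs0]; norm_num), ihs.2 hs0, iht.2 ht0, one_mul]
  | cancel a s h ih =>
    obtain ⟨ha, hT⟩ := isTate_cons_cons hpm ih.1
    refine ⟨hT, ?_⟩
    intro hs0
    have h1 : ({a, -a} : Multiset (ZMod m)) + s = a ::ₘ -a ::ₘ s := by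
      simp [Multiset.insert_eq_cons, Multiset.cons_add]
    have h2 := ih.2 (by simp)
    rw [← h1, S.join m hm hpm _ s (isTate_pair hpm ha) hT
      (by rw [S.pair m hm hpm a ha]; norm_num), S.pair m hm hpm a ha, one_mul] at h2
    exact h2

/-- characters which become generated in a higher degree have sign `1` -/
lemma sgn_of_generated_level (S : SignSystem p) (hm : 0 < m) (hpm : p.Coprime m)
    {s : Multiset (ZMod m)} (hs : IsTate p m s) (hne : s ≠ 0) {N : ℕ} (hN : 0 < N)
    (hpN : p.Coprime N)
    (h : H916T.Generated (N * m) (MBase p (N * m)) (s.map (iota N : ZMod m → ZMod (N * m)))) :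
    S.sgn m s = 1 := by
  have h1 := sgn_of_generated S (Nat.mul_pos hN hm) (Nat.Coprime.mul_right hpN hpm) h
  rw [← S.level m hm hpm N hN hpN s hs]
  apply h1.2
  intro h0
  exact hne (Multiset.map_eq_zero.mp h0)

lemma generated_mono {base base' : Multiset (ZMod m) → Prop} (h : ∀ s, base s → base' s)
    {s : Multiset (ZMod m)} (hs : H916T.Generated m base s) : H916T.Generated m base' s := by
  induction hs with
  | ofBase s hs => exact .ofBase s (h s hs)
  | pair a ha => exact .pair a ha
  | join s t hs ht ihs iht => exact .join s t ihs iht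
  | cancel a s h ih => exact .cancel a s ih

open scoped Classical in
/-- a Tate character with even parities has sign `1` -/
theorem sgn_even (S : SignSystem p) (hp : p.Prime) (hm : 0 < m) (hpm : p.Coprime m)
    {s : Multiset (ZMod m)} (hs : IsTate p m s) (hne : s ≠ 0)
    (hpar : ∀ a : ZMod m, Even (s.countP (fun b => Relation.EqvGen (H916Z.Link p) a b))) :
    S.sgn m s = 1 := by
  obtain ⟨N, hN, hpN, H⟩ := H916Y.parity_main hp hm hpm hs hne hpar
  refine sgn_of_generated_level S hm hpm hs hne hN hpN (generated_mono ?_ (H (N * m) rfl))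
  intro t ht
  rcases ht with h | h
  · exact Or.inl h
  · exact Or.inr (Or.inl h)

open scoped Classical in
/-- two Tate characters with the same parities have the same sign -/
theorem sgn_eq (S : SignSystem p) (hp : p.Prime) (hm : 0 < m) (hpm : p.Coprime m)
    {s t : Multiset (ZMod m)} (hs : IsTate p m s) (ht : IsTate p m t) (hsne : s ≠ 0)
    (hpar : ∀ a : ZMod m, Even ((s + t).countP (fun b => Relation.EqvGen (H916Z.Link p) a b))) :
    S.sgn m s = S.sgn m t := by
  have hz : NeZero m := ⟨hm.ne'⟩
  have h1 : S.sgn m (s + t) = 1 := by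
    apply sgn_even S hp hm hpm (isTate_add hpm hs ht) _ hpar
    intro h
    apply hsne
    have := congrArg Multiset.card h
    rw [Multiset.card_add, Multiset.card_zero] at this
    exact Multiset.card_eq_zero.mp (by omega)
  by_cases hs0 : S.sgn m s = 0
  · by_cases ht0 : S.sgn m t = 0
    · rw [hs0, ht0]
    · have h2 := S.join m hm hpm t s ht hs ht0
      rw [add_comm, h1, hs0, mul_zero] at h2
      norm_num at h2
  · have h2 := S.join m hm hpm s t hs ht hs0
    rw [h1] at h2
    rcases S.range m s with h | h | h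
    · exact absurd h hs0
    · rw [h, one_mul] at h2; rw [h, h2]
    · rw [h] at h2 ⊢; linarith

/-- all Tate characters have sign `1` in the good degrees -/
theorem sgn_good (S : SignSystem p) (hp : p.Prime) (hm : 0 < m) (hpm : p.Coprime m)
    (hm3 : ∀ q : ℕ, q.Prime → q ∣ m → q = 2 ∨ q % 4 = 3)
    {s : Multiset (ZMod m)} (hs : IsTate p m s) (hne : s ≠ 0) : S.sgn m s = 1 := by
  obtain ⟨N, hN, hpN, H⟩ := N214.FT.main hp hm hpm hm3 hs hne
  exact sgn_of_generated_level S hm hpm hs hne hN hpN (H (N * m) rfl)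

end Pool.Agent.N992.HSC
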